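import Pool.Agent.Helper35.CWS.StA

/-! # Project CWS, module CHC: start at an end point of a 1-cell -/

set_option autoImplicit false

namespace Pool.Agent.Helper17.CWS

open Set Topology Metric Pool.Agent.Helper35.CWS

private theorem nrm (z : Fin 1 → ℝ) : ‖z‖ = |z 0| := by
  have h : z = fun _ => z 0 := by
    funext i
    rw [Subsingleton.elim i 0]
  have h2 : ‖z‖ = ‖(fun _ : Fin 1 => z 0)‖ := by rw [← h]
  rw [h2, pi_norm_const, Real.norm_eq_abs]

private theorem ext1 {z w : Fin 1 → ℝ} (h : z 0 = w 0) : z = w := by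
  funext i
  rw [Subsingleton.elim i 0]
  exact h

theorem hCHC : StINI → StCHC := by
  intro hI Y _ _ Q σ V hQ hσ hne hV hσV
  have hσ1 : |σ 0| = 1 := by
    have := hσ
    rw [mem_sphere_zero_iff_norm, nrm] at this
    exact this
  have hσ2 : σ 0 * σ 0 = 1 := by
    have := abs_mul_abs_self (σ 0)
    rw [hσ1] at this
    linarith
  have hsn : ∀ t : ℝ, ‖t • σ‖ = |t| := by
    intro t
    rw [nrm]
    simp [abs_mul, hσ1]
  -- the chart
  set E : (Fin 1 → ℝ) → Y := fun w => Q ((1 - w 0) • σ) with hE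
  set K : Set (Fin 1 → ℝ) := {w | 0 ≤ w 0 ∧ w 0 ≤ 1 / 2} with hK
  set B : Set (Fin 1 → ℝ) := {w | 0 ≤ w 0 ∧ w 0 < 1 / 4} with hB
  set A : Set Y := Q '' closedBall 0 1 with hA
  set C : Set (Fin 1 → ℝ) := closedBall 0 1 ∩ {z | z 0 * σ 0 ≤ 3 / 4} with hC
  set W : Set Y := V \ Q '' C with hW
  have hKc : IsCompact K := by
    have : K = Icc (fun _ => 0) (fun _ => 1 / 2) := by
      ext w
      simp only [hK, mem_ofPred_eq, mem_Icc, Pi.le_def, Fin.forall_fin_one]
    rw [this]
    exact isCompact_Icc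
  have hEc : ContinuousOn E K := by
    refine hQ.cont.comp ?_ ?_
    · exact ((continuous_const.sub (continuous_apply 0)).smul continuous_const).continuousOn
    · intro w hw
      rw [mem_closedBall_zero_iff, hsn, abs_le]
      constructor <;> linarith [hw.1, hw.2]
  have hball : ∀ w ∈ K, 0 < w 0 → (1 - w 0) • σ ∈ ball (0 : Fin 1 → ℝ) 1 := by
    intro w hw h0
    rw [mem_ball_zero_iff, hsn, abs_lt]
    constructor <;> linarith [hw.1, hw.2]
  have hEi : InjOn E K := by
    intro w hw w' hw' hww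
    simp only [hE] at hww
    rcases lt_or_eq_of_le hw.1 with h | h <;> rcases lt_or_eq_of_le hw'.1 with h' | h'
    · have h3 := hQ.inj (hball w hw h) (hball w' hw' h') hww
      have h4 := congrFun h3 0
      simp only [Pi.smul_apply, smul_eq_mul] at h4
      have h5 : (1 - w 0) * (σ 0 * σ 0) = (1 - w' 0) * (σ 0 * σ 0) := by
        rw [← mul_assoc, ← mul_assoc, h4]
      rw [hσ2] at h5
      exact ext1 (by linarith)
    · exfalso
      rw [← h', sub_zero, one_smul] at hww
      exact hQ.ne _ (hball w hw h) σ hσ hww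
    · exfalso
      rw [← h, sub_zero, one_smul] at hww
      exact hQ.ne _ (hball w' hw' h') σ hσ hww.symm
    · exact ext1 (by rw [← h, ← h'])
  have hEA : E '' K ⊆ A := by
    rintro _ ⟨w, hw, rfl⟩
    refine ⟨(1 - w 0) • σ, ?_, rfl⟩
    rw [mem_closedBall_zero_iff, hsn, abs_le]
    constructor <;> linarith [hw.1, hw.2]
  have hBK : B ⊆ K := fun w hw => ⟨hw.1, by linarith [hw.2]⟩
  have hAW : A ∩ W ⊆ E '' B := by
    rintro _ ⟨⟨z, hz, rfl⟩, hz2⟩
    have hz3 : ¬ z 0 * σ 0 ≤ 3 / 4 := fun h => hz2.2 ⟨z, ⟨hz, h⟩, rfl⟩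
    have hz4 : z 0 * σ 0 ≤ 1 := by
      rw [mem_closedBall_zero_iff, nrm] at hz
      calc z 0 * σ 0 ≤ |z 0 * σ 0| := le_abs_self _
        _ = |z 0| := by rw [abs_mul, hσ1, mul_one]
        _ ≤ 1 := hz
    refine ⟨fun _ => 1 - z 0 * σ 0, ⟨by linarith, by linarith [not_le.1 hz3]⟩, ?_⟩
    have : (1 - (1 - z 0 * σ 0)) • σ = z := by
      apply ext1
      simp only [Pi.smul_apply, smul_eq_mul]
      calc (1 - (1 - z 0 * σ 0)) * σ 0 = z 0 * (σ 0 * σ 0) := by ring
        _ = z 0 := by rw [hσ2, mul_one]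
    simp only [hE, this]
  have hWo : IsOpen W := by
    have hCc : IsCompact C := (isCompact_closedBall (0 : Fin 1 → ℝ) 1).inter_right
      (isClosed_le ((continuous_apply 0).mul continuous_const) continuous_const)
    have : IsCompact (Q '' C) := hCc.image_of_continuousOn (hQ.cont.mono inter_subset_left)
    exact hV.sdiff this.isClosed
  have hσW : Q σ ∈ W := by
    refine ⟨hσV, ?_⟩
    rintro ⟨z, ⟨hz1, hz2⟩, hz3⟩
    rw [mem_closedBall_zero_iff] at hz1
    rcases lt_or_eq_of_le hz1 with h | h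
    · exact hQ.ne z (mem_ball_zero_iff.2 h) σ hσ hz3
    · have h2 : |z 0| = |σ 0| := by rw [hσ1, ← nrm, h]
      rcases abs_eq_abs.1 h2 with h3 | h3
      · have : z 0 * σ 0 ≤ 3 / 4 := hz2
        rw [h3, hσ2] at this
        linarith
      · apply hne
        have : z = -σ := ext1 (by simpa using h3)
        rw [← this]
        exact hz3
  have hσA : Q σ ∈ A := ⟨σ, sphere_subset_closedBall hσ, rfl⟩
  obtain ⟨Ψ, h1, h2⟩ := hI Y 1 A W E K B (fun _ => 1) (1 / 4) (by norm_num) hKc hEc hEi hEA hBK hAW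
    (by
      intro h
      have := congrFun h 0
      simp at this)
    (by
      intro w hw s hs
      constructor
      · simp only [Pi.add_apply, Pi.smul_apply, smul_eq_mul, mul_one]
        linarith [hw.1, hs.1]
      · simp only [Pi.add_apply, Pi.smul_apply, smul_eq_mul, mul_one]
        linarith [hw.2, hs.2])
  exact ⟨W, 1 / 4, Ψ, hWo, sdiff_subset, hσW, h1, h2 (Q σ) ⟨hσA, hσW⟩⟩

end Pool.Agent.Helper17.CWS
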